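import Pool.Agent.helper64.PC.SpecX

set_option autoImplicit false

namespace Pool.Agent.PC

open Finset Pool.Agent.PB

theorem ABS (hAPM : APM_stmt) : ABS_stmt := by
  intro P A Om _ _ _ _ S N ρ u s hA hOm hsize hpos hneg
  obtain ⟨l, hl, hls, hlu⟩ := hsize
  obtain ⟨E, E', hE, hE', hAv⟩ := hAPM P A Om S N ρ l hl
  obtain ⟨C, hC, hCa, hCw⟩ := hAv u hlu
  by_cases hB : ∃ B ∈ C, B.card ≤ S.t
  · right
    obtain ⟨B, hBC, hBt⟩ := hB
    have hPF := (hC.mem B hBC).1
    have h1 := S.hit1 B hPF hBt
    have h2 : ct (fun w => B ⊆ S.nu w) ≤ E'.card := by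
      rw [← ct_mem E']
      refine ct_mono fun w hw => ?_
      by_contra hc
      have h := hCw w hc ⟨B, hBC, hBt, hw⟩
      rw [hneg w] at h
      exact absurd h (by decide)
    have h3 : Fintype.card Om * S.M ≤
        Fintype.card Om * (s * (S.lam * (Fintype.card P + 1) ^ (2 * S.t))) := by
      calc Fintype.card Om * S.M ≤ (ct (fun w => B ⊆ S.nu w) * S.lam) * S.M :=
            Nat.mul_le_mul_right _ h1
        _ ≤ (E'.card * S.lam) * S.M := Nat.mul_le_mul_right _ (Nat.mul_le_mul_right _ h2)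
        _ = (E'.card * S.M) * S.lam := by ring
        _ ≤ (l.length * ((Fintype.card P + 1) ^ (2 * S.t) * Fintype.card Om)) * S.lam :=
            Nat.mul_le_mul_right _ hE'
        _ ≤ (s * ((Fintype.card P + 1) ^ (2 * S.t) * Fintype.card Om)) * S.lam :=
            Nat.mul_le_mul_right _ (Nat.mul_le_mul_right _ hls)
        _ = Fintype.card Om * (s * (S.lam * (Fintype.card P + 1) ^ (2 * S.t))) := by ring
    exact Nat.le_of_mul_le_mul_left h3 hOm
  · left
    have hall : E = univ := by
      apply eq_univ_of_forall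
      intro a
      by_contra hc
      obtain ⟨B, hBC, hBt, -⟩ := hCa a hc (hpos a)
      exact hB ⟨B, hBC, hBt⟩
    rw [hall, card_univ] at hE
    have h3 : Fintype.card A * 4 ^ S.t ≤ Fintype.card A * s := by
      calc Fintype.card A * 4 ^ S.t ≤ l.length * Fintype.card A := hE
        _ ≤ s * Fintype.card A := Nat.mul_le_mul_right _ hls
        _ = Fintype.card A * s := by ring
    exact Nat.le_of_mul_le_mul_left h3 hA

end Pool.Agent.PC
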