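import Pool.Agent.helper64.PC.SpecE

set_option autoImplicit false

namespace Pool.Agent.PC

open Pool.Agent.PB

theorem BFT_main (hTTH : TTH_stmt) (hBFX : BFX_stmt) (G : Set Gate) (hT : Trivial (ter G))
    (hG : ∀ n, 1 ≤ n → ∀ f : BF n, InCl G f → InCl (ter G) f) :
    ∃ c : ℕ, ∀ n, 1 ≤ n → ∀ f : BF n, InCl G f → Size (upTo G c) f (c * n) := by
  obtain ⟨c1, h1⟩ := hTTH (ter G) hT
  obtain ⟨b, c2, h2⟩ := hBFX G
  refine ⟨max b (c2 * c1), fun n hn f hf => ?_⟩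
  have h3 := h2 n f (c1 * n) (h1 n hn f (hG n hn f hf))
  refine Size.mono_size ?_ (Size.mono_basis (upTo_mono (le_max_left b (c2 * c1))) h3)
  calc c2 * (c1 * n) = c2 * c1 * n := by ring
    _ ≤ max b (c2 * c1) * n := Nat.mul_le_mul_right _ (le_max_right _ _)

theorem BFT (hFGC : FGC_stmt) (hFGA : FGA_stmt) (hBFX : BFX_stmt) (hTTH : TTH_stmt)
    (hPRP : PRP_stmt) (hDUA : DUA_stmt) : BFT_stmt := by
  have hconj : ∀ G : Set Gate, (∀ g ∈ G, Conj g.2) →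
      ∃ c : ℕ, ∀ n, 1 ≤ n → ∀ f : BF n, InCl G f → Size (upTo G c) f (c * n) := by
    intro G hG
    refine BFT_main hTTH hBFX G (Or.inr (Or.inl ?_)) (hFGC G hG)
    intro g hg
    exact (hPRP G g.1 g.2 hg.2).2.1 hG
  obtain ⟨-, -, -, hsz, -, -, hprop⟩ := hDUA
  intro G hT
  rcases hT with hA | hC | hD
  · refine BFT_main hTTH hBFX G (Or.inl ?_) (hFGA G hA)
    intro g hg
    exact (hPRP G g.1 g.2 hg.2).1 hA
  · exact hconj G hC
  · have hdual : ∀ g ∈ dualB G, Conj g.2 := by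
      intro g hg
      have h := hD _ hg
      exact (hprop g.1 g.2).2.2.2.1.1 h
    obtain ⟨c, hc⟩ := hconj (dualB G) hdual
    refine ⟨c, fun n hn f hf => ?_⟩
    obtain ⟨s, hs⟩ := hf
    have h1 : InCl (dualB G) (dual f) := ⟨s, (hsz G n f s).2 hs⟩
    have h2 := hc n hn (dual f) h1
    have h3 : upTo (dualB G) c = dualB (upTo G c) := rfl
    rw [h3] at h2
    exact (hsz (upTo G c) n f (c * n)).1 h2

end Pool.Agent.PC
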