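import Pool.Agent.helper64.PC.SpecX

set_option autoImplicit false

namespace Pool.Agent.PC

open Finset Pool.Agent.PB

theorem CDB : CDB_stmt := by
  intro P _ _ D j hD
  classical
  have hsub : D ⊆ (univ : Finset (Fin j → Option P)).image
      (fun f => univ.filter fun x => ∃ i, f i = some x) := by
    intro B hB
    rw [mem_image]
    refine ⟨fun i => if h : i.val < B.card then some (B.equivFin.symm ⟨i.val, h⟩ : P) else none,
      mem_univ _, ?_⟩
    ext x
    simp only [mem_filter, mem_univ, true_and]
    constructor
    · rintro ⟨i, hi⟩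
      by_cases h : i.val < B.card
      · rw [dif_pos h, Option.some.injEq] at hi
        rw [← hi]
        exact (B.equivFin.symm ⟨i.val, h⟩).2
      · rw [dif_neg h] at hi
        exact absurd hi (by simp)
    · intro hx
      refine ⟨⟨(B.equivFin ⟨x, hx⟩).val, lt_of_lt_of_le (B.equivFin ⟨x, hx⟩).2 (hD B hB)⟩, ?_⟩
      rw [dif_pos (B.equivFin ⟨x, hx⟩).2]
      simp
  calc D.card ≤ ((univ : Finset (Fin j → Option P)).image
      (fun f => univ.filter fun x => ∃ i, f i = some x)).card := card_le_card hsub
    _ ≤ (univ : Finset (Fin j → Option P)).card := card_image_le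
    _ = (Fintype.card P + 1) ^ j := by
      rw [card_univ, Fintype.card_fun, Fintype.card_option, Fintype.card_fin]

end Pool.Agent.PC
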