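import Pool.Agent.helper64.PC.SpecX

set_option autoImplicit false

namespace Pool.Agent.PC

open Finset Pool.Agent.PB

theorem CLC : CLC_stmt := by
  intro P A Om _ _ _ _ S Φ D hD1 hD2
  refine ⟨hD1, ?_, ?_⟩
  · intro B hB B' hBB' hPF hcard
    refine hD2 B' hPF hcard ?_
    have h0 : ct (fun w => B' ⊆ S.nu w ∧ ¬ Φ w ∧ ¬ ∃ B' ∈ D, B' ⊆ S.nu w) = 0 := by
      apply Nat.eq_zero_of_le_zero
      have hm : ct (fun w => B' ⊆ S.nu w ∧ ¬ Φ w ∧ ¬ ∃ B' ∈ D, B' ⊆ S.nu w) ≤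
          ct (fun _ : Om => False) :=
        ct_mono fun w hw => hw.2.2 ⟨B, hB, hBB'.trans hw.1⟩
      refine hm.trans ?_
      simp [ct]
    rw [h0, zero_mul]
    exact Nat.zero_le _
  · intro U F i hU hF hB hsp
    obtain ⟨B₀, hB₀⟩ := hF
    have hmem0 := hD1 _ (hB B₀ hB₀).2.2
    have hi : i ≤ 2 * S.t := by
      rw [← (hB B₀ hB₀).1]
      exact (card_le_card subset_union_right).trans hmem0.2
    have hPF : ∀ B ∈ F, S.PF B ∧ B.card = i := fun B hBF =>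
      ⟨S.sub B (U ∪ B) subset_union_right (hD1 _ (hB B hBF).2.2).1, (hB B hBF).1⟩
    have hh := S.hitF F i hi ⟨B₀, hB₀⟩ hPF hsp
    refine hD2 U (S.sub U (U ∪ B₀) subset_union_left hmem0.1) hU ?_
    refine le_trans (Nat.mul_le_mul_right _ ?_) hh
    refine ct_mono fun w hw => ?_
    rintro ⟨B, hBF, hBw⟩
    exact hw.2.2 ⟨U ∪ B, (hB B hBF).2.2, union_subset hw.1 hBw⟩

end Pool.Agent.PC
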